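import Pool.Agent.TH193.LB.Lyap

set_option autoImplicit false
namespace Pool.Agent.TH193.LB

open Filter Topology MeasureTheory ENNReal

lemma Q_expand {a : ℝ} (ha : 0 < a) (x z : H) (h : ℝ) :
    Q a ha (x + (h : ℂ) • z) = Q a ha x + 2 * h * (inner ℂ (M a ha x) z : ℂ).re +
      h ^ 2 * Q a ha z := by
  unfold Q
  rw [map_add, map_smul, inner_add_left, inner_add_right, inner_add_right, inner_smul_left,
    inner_smul_left, inner_smul_right, inner_smul_right, Complex.conj_ofReal, M_symm ha z x]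
  have h1 : (inner ℂ z (M a ha x) : ℂ).re = (inner ℂ (M a ha x) z : ℂ).re := by
    rw [← inner_conj_symm, Complex.conj_re]
  simp only [Complex.add_re, Complex.re_ofReal_mul]
  rw [h1]
  ring

lemma deriv_ineq {a : ℝ} (ha : 0 < a) (x y : H)
    (hxy : Tendsto (fun h : ℝ => ((h : ℂ)⁻¹) • (T h x - x)) (𝓝[>] 0) (𝓝 y)) :
    ‖x‖ ^ 2 ≤ 2 * a * Q a ha x + 2 * (inner ℂ (M a ha x) y : ℂ).re := by
  have hex : ∀ᶠ h : ℝ in 𝓝[>] 0, ‖T h x‖ ^ 2 ≤
      (Real.exp (2 * a * h) - 1) / h * Q a ha x +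
        Real.exp (2 * a * h) * (2 * (inner ℂ (M a ha x) (((h : ℂ)⁻¹) • (T h x - x)) : ℂ).re +
          h * Q a ha (((h : ℂ)⁻¹) • (T h x - x))) := by
    filter_upwards [self_mem_nhdsWithin] with h hh
    have hh' : (0 : ℝ) < h := hh
    have hne : (h : ℂ) ≠ 0 := by exact_mod_cast hh'.ne'
    set z := ((h : ℂ)⁻¹) • (T h x - x) with hz
    have e1 : T h x = x + (h : ℂ) • z := by
      rw [hz, smul_smul, mul_inv_cancel₀ hne, one_smul]; abel
    have h1 := lyap ha hh' x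
    rw [e1, Q_expand, ← e1] at h1
    have h2 : h * ‖T h x‖ ^ 2 ≤ h * ((Real.exp (2 * a * h) - 1) / h * Q a ha x +
        Real.exp (2 * a * h) * (2 * (inner ℂ (M a ha x) z : ℂ).re + h * Q a ha z)) := by
      have e2 : h * ((Real.exp (2 * a * h) - 1) / h * Q a ha x +
        Real.exp (2 * a * h) * (2 * (inner ℂ (M a ha x) z : ℂ).re + h * Q a ha z)) =
        Real.exp (2 * a * h) * (Q a ha x + 2 * h * (inner ℂ (M a ha x) z : ℂ).re +
          h ^ 2 * Q a ha z) - Q a ha x := by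
        field_simp
        ring
      rw [e2]
      linarith
    exact le_of_mul_le_mul_left h2 hh'
  have l1 : Tendsto (fun h : ℝ => ‖T h x‖ ^ 2) (𝓝[>] 0) (𝓝 (‖x‖ ^ 2)) :=
    ((T_tendsto x).norm).pow 2
  have l2 : Tendsto (fun h : ℝ => (Real.exp (2 * a * h) - 1) / h) (𝓝[>] 0) (𝓝 (2 * a)) := by
    have h1 : HasDerivAt (fun h : ℝ => Real.exp (2 * a * h)) (Real.exp (2 * a * 0) * (2 * a)) 0 := by
      have h2 : HasDerivAt (fun h : ℝ => 2 * a * h) (2 * a) 0 := by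
        simpa using (hasDerivAt_id (0 : ℝ)).const_mul (2 * a)
      exact h2.exp
    have h3 := h1.tendsto_slope_zero_right
    simp only [mul_zero, Real.exp_zero, one_mul, zero_add] at h3
    refine h3.congr (fun h => ?_)
    rw [smul_eq_mul, div_eq_inv_mul]
  have l3 : Tendsto (fun h : ℝ => Real.exp (2 * a * h)) (𝓝[>] 0) (𝓝 1) := by
    have : Continuous (fun h : ℝ => Real.exp (2 * a * h)) := by fun_prop
    have h1 := this.tendsto 0
    simp only [mul_zero, Real.exp_zero] at h1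
    exact h1.mono_left nhdsWithin_le_nhds
  have l4 : Tendsto (fun h : ℝ => (inner ℂ (M a ha x) (((h : ℂ)⁻¹) • (T h x - x)) : ℂ).re)
      (𝓝[>] 0) (𝓝 ((inner ℂ (M a ha x) y : ℂ).re)) :=
    (Complex.continuous_re.tendsto _).comp (Tendsto.inner tendsto_const_nhds hxy)
  have l5 : Tendsto (fun h : ℝ => h * Q a ha (((h : ℂ)⁻¹) • (T h x - x)))
      (𝓝[>] 0) (𝓝 (0 * Q a ha y)) := by
    apply Filter.Tendsto.mul
    · exact (continuous_id.tendsto 0).mono_left nhdsWithin_le_nhds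
    · unfold Q
      exact (Complex.continuous_re.tendsto _).comp
        (Tendsto.inner (((M a ha).continuous.tendsto y).comp hxy) hxy)
  have l6 := (l2.mul_const (Q a ha x)).add (l3.mul ((l4.const_mul 2).add l5))
  have := le_of_tendsto_of_tendsto l1 l6 hex
  simpa using this

/-- the resolvent lower bound -/
theorem lower (x y : H)
    (hxy : Tendsto (fun h : ℝ => ((h : ℂ)⁻¹) • (T h x - x)) (𝓝[>] 0) (𝓝 y))
    (μ : ℂ) (hμ : μ.re < 0) : 1 / 4 * |μ.re| * ‖x‖ ≤ ‖μ • x - y‖ := by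
  rcases eq_or_ne x 0 with h0 | h0
  · rw [h0]; simp
  set a := -μ.re with ha'
  have ha : 0 < a := by rw [ha']; linarith
  have habs : |μ.re| = a := by rw [abs_of_neg hμ]
  rw [habs]
  have h1 := deriv_ineq ha x y hxy
  have h2 : (inner ℂ (M a ha x) (μ • x - y) : ℂ).re =
      -(a * Q a ha x + (inner ℂ (M a ha x) y : ℂ).re) := by
    rw [inner_sub_right, inner_smul_right, Q_eq, Q_inner]
    simp only [Complex.sub_re, Complex.mul_re, Complex.ofReal_re, Complex.ofReal_im, mul_zero,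
      sub_zero]
    have hre : μ.re = -a := by rw [ha']; ring
    rw [hre]; ring
  have h3 : |(inner ℂ (M a ha x) (μ • x - y) : ℂ).re| ≤ ‖M a ha x‖ * ‖μ • x - y‖ :=
    (Complex.abs_re_le_norm _).trans (norm_inner_le_norm _ _)
  have h4 : ‖M a ha x‖ ≤ 2 / a * ‖x‖ := (M a ha).le_of_opNorm_le (M_norm ha) x
  have h5 : ‖x‖ ^ 2 ≤ 2 * (2 / a * ‖x‖ * ‖μ • x - y‖) := by
    have h6 : ‖x‖ ^ 2 ≤ -2 * (inner ℂ (M a ha x) (μ • x - y) : ℂ).re := by
      rw [h2]; linarith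
    have h7 : -(inner ℂ (M a ha x) (μ • x - y) : ℂ).re ≤ ‖M a ha x‖ * ‖μ • x - y‖ :=
      (neg_le_abs _).trans h3
    have h8 : ‖M a ha x‖ * ‖μ • x - y‖ ≤ 2 / a * ‖x‖ * ‖μ • x - y‖ :=
      mul_le_mul_of_nonneg_right h4 (norm_nonneg _)
    linarith
  have hx : 0 < ‖x‖ := norm_pos_iff.2 h0
  have h9 : ‖x‖ * (a * ‖x‖) ≤ ‖x‖ * (4 * ‖μ • x - y‖) := by
    have h10 : a * (2 * (2 / a * ‖x‖ * ‖μ • x - y‖)) = ‖x‖ * (4 * ‖μ • x - y‖) := by
      field_simp
      ring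
    calc ‖x‖ * (a * ‖x‖) = a * ‖x‖ ^ 2 := by ring
      _ ≤ a * (2 * (2 / a * ‖x‖ * ‖μ • x - y‖)) := mul_le_mul_of_nonneg_left h5 ha.le
      _ = _ := h10
  have h11 := le_of_mul_le_mul_left h9 hx
  linarith

lemma nu_unit_pos : 0 < nu (Set.Ioo 0 1) := by
  unfold nu
  rw [withDensity_apply _ measurableSet_Ioo, Measure.restrict_restrict measurableSet_Ioo]
  have h1 : Set.Ioo (0 : ℝ) 1 ∩ Set.Ioi 0 = Set.Ioo 0 1 := by
    ext x; simp; intro h _; exact h
  rw [h1]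
  have h2 : ∫⁻ _ in Set.Ioo (0 : ℝ) 1, (1 : ℝ≥0∞) ≤ ∫⁻ x in Set.Ioo (0 : ℝ) 1, w x := by
    apply setLIntegral_mono' measurableSet_Ioo
    intro x hx
    unfold w
    rw [ENNReal.one_le_ofReal, le_div_iff₀ (Real.sqrt_pos.2 hx.1), one_mul, Real.sqrt_le_one]
    exact hx.2.le
  refine lt_of_lt_of_le ?_ h2
  rw [setLIntegral_const, one_mul, Real.volume_Ioo]
  norm_num

/-- no uniform lower bound for the semigroup -/
theorem no_lower : ¬ ∃ m₁ : ℝ, 0 < m₁ ∧ ∀ t : ℝ, 0 ≤ t → ∀ x : H, m₁ * ‖x‖ ≤ ‖T t x‖ := by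
  rintro ⟨m, hm, h⟩
  have hfin : nu (Set.Ioo 0 1) ≠ ⊤ := by
    refine ne_top_of_le_ne_top (nu_Icc_lt 1).ne (measure_mono ?_)
    intro x hx
    exact ⟨by linarith [hx.1], hx.2.le⟩
  let f : H := indicatorConstLp 2 measurableSet_Ioo hfin (1 : ℂ)
  have hf : (f : ℝ → ℂ) =ᵐ[nu] (Set.Ioo 0 1).indicator (fun _ => (1 : ℂ)) :=
    indicatorConstLp_coeFn
  have hfpos : 0 < ‖f‖ := by
    rw [norm_indicatorConstLp (by norm_num) (by norm_num)]
    simp only [norm_one, one_mul]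
    apply Real.rpow_pos_of_pos
    exact ENNReal.toReal_pos nu_unit_pos.ne' hfin
  have hb : ∀ t : ℝ, 0 < t → ‖T t f‖ ^ 2 ≤ 1 / Real.sqrt t * ‖f‖ ^ 2 := by
    intro t ht
    rw [T_normsq ht.le, norm_sq_eq, ← integral_const_mul]
    have hr : ∀ᵐ y ∂nu, |r t y| ≤ 1 := by
      filter_upwards [ae_pos] with y hy
      rw [abs_of_nonneg (r_nonneg _ _)]
      exact r_le_one ht.le hy
    apply integral_mono_ae (int_mul f _ (r_meas t) 1 hr) ((int_sq f).const_mul _)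
    filter_upwards [hf, ae_pos] with y hy hy0
    rw [hy, Set.indicator_apply]
    split_ifs with h1
    · simp only [norm_one, one_pow, mul_one]
      unfold r
      rw [Real.sqrt_div hy0.le]
      have h2 : Real.sqrt t ≤ Real.sqrt (y + t) := Real.sqrt_le_sqrt (by linarith)
      have h3 : Real.sqrt y ≤ 1 := Real.sqrt_le_one.2 h1.2.le
      exact div_le_div₀ zero_le_one h3 (Real.sqrt_pos.2 ht) h2
    · simp
  -- choose t with 1 / sqrt t < m ^ 2
  set t := (2 / m ^ 2) ^ 2 with ht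
  have htpos : 0 < t := by positivity
  have h1 := h t htpos.le f
  have h2 := hb t htpos
  have h3 : Real.sqrt t = 2 / m ^ 2 := by
    rw [ht]; exact Real.sqrt_sq (by positivity)
  rw [h3] at h2
  have h4 : (m * ‖f‖) ^ 2 ≤ ‖T t f‖ ^ 2 := by
    apply pow_le_pow_left₀ (by positivity) h1
  have h5 : 1 / (2 / m ^ 2) = m ^ 2 / 2 := by field_simp
  rw [h5] at h2
  have h6 : 0 < m ^ 2 * ‖f‖ ^ 2 := by positivity
  nlinarith

end Pool.Agent.TH193.LB
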