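import Pool.Agent.TH193.LB.Sg

set_option autoImplicit false
namespace Pool.Agent.TH193.LB

open Filter Topology MeasureTheory ENNReal

lemma nu_Icc_lt (R : ℝ) : nu (Set.Icc (-R) R) < ⊤ := by
  have h1 : nu (Set.Icc (-R) R) ≤ ∫⁻ x in Set.Ioc 0 (max R 0), w x := by
    unfold nu
    rw [withDensity_apply _ measurableSet_Icc, Measure.restrict_restrict measurableSet_Icc]
    apply lintegral_mono_set
    rintro x ⟨⟨_, h2⟩, h3⟩
    exact ⟨h3, h2.trans (le_max_left _ _)⟩
  refine h1.trans_lt ?_
  have h2 : IntervalIntegrable (fun x : ℝ => x ^ (-(1 / 2) : ℝ)) volume 0 (max R 0) :=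
    intervalIntegral.intervalIntegrable_rpow' (by norm_num)
  rw [intervalIntegrable_iff_integrableOn_Ioc_of_le (le_max_right _ _)] at h2
  have h3 := h2.lintegral_lt_top
  refine lt_of_le_of_lt (le_of_eq ?_) h3
  apply setLIntegral_congr_fun measurableSet_Ioc
  intro x hx
  unfold w
  dsimp only
  rw [Real.sqrt_eq_rpow, Real.rpow_neg hx.1.le, one_div]

instance : IsLocallyFiniteMeasure nu := by
  constructor
  intro x
  refine ⟨Set.Icc (-(|x| + 1)) (|x| + 1), ?_, nu_Icc_lt _⟩
  apply _root_.Icc_mem_nhds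
  · linarith [neg_abs_le x]
  · linarith [le_abs_self x]

lemma tendsto_cc (g : ℝ → ℂ) (hg : Continuous g) (hs : HasCompactSupport g) :
    Tendsto (fun h : ℝ => eLpNorm (sh h g - g) 2 nu) (𝓝[>] 0) (𝓝 0) := by
  obtain ⟨C, hC⟩ := hg.bounded_above_of_compact_support hs
  obtain ⟨R, hR⟩ := hs.isCompact.isBounded.subset_closedBall 0
  have hsupp : ∀ x, R < |x| → g x = 0 := by
    intro x hx
    by_contra hne
    have := hR (subset_tsupport g hne)
    rw [Metric.mem_closedBall, dist_zero_right, Real.norm_eq_abs] at this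
    linarith
  have hC0 : 0 ≤ C := (norm_nonneg (g 0)).trans (hC 0)
  have key : Tendsto (fun h : ℝ => ∫⁻ x, ‖(sh h g - g) x‖ₑ ^ (2 : ℝ) ∂nu) (𝓝[>] 0) (𝓝 0) := by
    have hlim : ∫⁻ _ : ℝ, (0 : ℝ≥0∞) ∂nu = 0 := by simp
    rw [← hlim]
    apply tendsto_lintegral_filter_of_dominated_convergence
      ((Set.Icc (-(R + 1)) (R + 1)).indicator (fun _ => ENNReal.ofReal (2 * C) ^ (2 : ℝ)))
    · filter_upwards with h
      apply Measurable.pow_const
      apply Measurable.enorm
      apply Measurable.sub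
      · apply Measurable.indicator _ measurableSet_Ioi
        exact hg.measurable.comp (measurable_id.sub_const h)
      · exact hg.measurable
    · have h1 : ∀ᶠ h : ℝ in 𝓝[>] 0, h ∈ Set.Ioo (0 : ℝ) 1 := Ioo_mem_nhdsGT (by norm_num)
      filter_upwards [h1] with h hh
      filter_upwards with x
      by_cases hx : x ∈ Set.Icc (-(R + 1)) (R + 1)
      · rw [Set.indicator_of_mem hx]
        apply ENNReal.rpow_le_rpow _ (by norm_num)
        rw [← ofReal_norm]
        apply ENNReal.ofReal_le_ofReal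
        rw [Pi.sub_apply]
        refine (norm_sub_le _ _).trans ?_
        have h2 : ‖sh h g x‖ ≤ C := by
          rw [sh_apply]
          split_ifs
          · exact hC _
          · simpa using hC0
        linarith [hC x]
      · have hx1 : R + 1 < |x| := by
          by_contra hcon
          apply hx
          rw [Set.mem_Icc]
          exact abs_le.1 (by linarith)
        have h2 : g x = 0 := hsupp x (by linarith)
        have h3 : sh h g x = 0 := by
          rw [sh_apply]
          split_ifs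
          · apply hsupp
            have := abs_sub_abs_le_abs_sub x h
            rw [abs_of_pos hh.1] at this
            linarith [hh.2]
          · rfl
        rw [Pi.sub_apply, h2, h3]
        simp
    · rw [lintegral_indicator measurableSet_Icc, setLIntegral_const]
      apply ENNReal.mul_ne_top
      · exact (ENNReal.rpow_lt_top_of_nonneg (by norm_num) ENNReal.ofReal_ne_top).ne
      · exact (nu_Icc_lt _).ne
    · filter_upwards [ae_pos] with x hx
      have h1 : Tendsto (fun h : ℝ => sh h g x) (𝓝[>] 0) (𝓝 (g x)) := by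
        have h2 : Tendsto (fun h : ℝ => g (x - h)) (𝓝[>] 0) (𝓝 (g x)) := by
          have : Continuous (fun h : ℝ => g (x - h)) := by fun_prop
          have h3 := this.tendsto 0
          rw [sub_zero] at h3
          exact h3.mono_left nhdsWithin_le_nhds
        apply h2.congr'
        have h4 : ∀ᶠ h : ℝ in 𝓝[>] 0, h ∈ Set.Ioo (0 : ℝ) x := Ioo_mem_nhdsGT hx
        filter_upwards [h4] with h hh
        rw [sh_apply, if_pos hh.2]
      have h2 : Tendsto (fun h : ℝ => ‖(sh h g - g) x‖ₑ) (𝓝[>] 0) (𝓝 0) := by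
        have h3 := (h1.sub_const (g x)).enorm
        rw [sub_self, enorm_zero] at h3
        exact h3
      have h3 := h2.ennrpow_const 2
      rw [ENNReal.zero_rpow_of_pos (by norm_num)] at h3
      exact h3
  have h2 := key.ennrpow_const (1 / 2)
  rw [ENNReal.zero_rpow_of_pos (by norm_num)] at h2
  refine h2.congr (fun h => ?_)
  rw [eLpNorm_eq_lintegral_rpow_enorm_toReal (by norm_num) (by norm_num)]
  simp

lemma T_tendsto (f : H) : Tendsto (fun h : ℝ => T h f) (𝓝[>] 0) (𝓝 f) := by
  rw [Metric.tendsto_nhds]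
  intro ε hε
  obtain ⟨g, hgs, hge, hgc, hgm⟩ := (Lp.memLp f).exists_hasCompactSupport_eLpNorm_sub_le
    (by norm_num) (ε := ENNReal.ofReal (ε / 4)) (by simpa using hε)
  set g' : H := hgm.toLp g with hg'
  have h1 : ‖f - g'‖ ≤ ε / 4 := by
    have h2 : eLpNorm (f - g' : H) 2 nu = eLpNorm ((f : ℝ → ℂ) - g) 2 nu := by
      apply eLpNorm_congr_ae
      refine (Lp.coeFn_sub f g').trans ?_
      filter_upwards [hgm.coeFn_toLp] with x hx
      rw [Pi.sub_apply, Pi.sub_apply, hg', hx]
    rw [Lp.norm_def, h2]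
    apply ENNReal.toReal_le_of_le_ofReal (by positivity) hge
  have h2 := tendsto_cc g hgc hgs
  have h3 : ∀ᶠ h : ℝ in 𝓝[>] 0, eLpNorm (sh h g - g) 2 nu < ENNReal.ofReal (ε / 4) :=
    h2.eventually (gt_mem_nhds (by simpa using hε))
  filter_upwards [h3, self_mem_nhdsWithin] with h hh hpos
  have hpos' : (0 : ℝ) ≤ h := le_of_lt hpos
  have h4 : ‖T h g' - g'‖ ≤ ε / 4 := by
    have h5 : eLpNorm (T h g' - g' : H) 2 nu = eLpNorm (sh h g - g) 2 nu := by
      apply eLpNorm_congr_ae
      refine (Lp.coeFn_sub _ g').trans ?_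
      rw [T_eq hpos']
      filter_upwards [hgm.coeFn_toLp, S_coe hpos' g', sh_ae hpos' hgm.coeFn_toLp] with x hx hx2 hx3
      rw [Pi.sub_apply, Pi.sub_apply, hx2, hg', hx3, hx]
    rw [Lp.norm_def, h5]
    exact ENNReal.toReal_le_of_le_ofReal (by positivity) hh.le
  rw [dist_eq_norm]
  have h6 : T h f - f = T h (f - g') + (T h g' - g') - (f - g') := by
    rw [map_sub]; abel
  rw [h6]
  have h7 : ‖T h (f - g')‖ ≤ 1 * ‖f - g'‖ := (T h).le_of_opNorm_le (T_norm h) _
  calc ‖T h (f - g') + (T h g' - g') - (f - g')‖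
      ≤ ‖T h (f - g')‖ + ‖T h g' - g'‖ + ‖f - g'‖ :=
        (norm_sub_le _ _).trans (add_le_add (norm_add_le _ _) le_rfl)
    _ < ε := by linarith

lemma T_contOn (f : H) : ContinuousOn (fun t : ℝ => T t f) (Set.Ici 0) := by
  intro s hs
  rw [ContinuousWithinAt, Metric.tendsto_nhds]
  intro ε hε
  have h1 := (Metric.tendsto_nhds.1 (T_tendsto f)) ε hε
  rw [eventually_nhdsWithin_iff, Metric.eventually_nhds_iff] at h1
  obtain ⟨δ, hδ, h1⟩ := h1
  have h2 : ∀ h : ℝ, 0 ≤ h → h < δ → ‖T h f - f‖ < ε := by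
    intro h h0 hδ'
    rcases h0.eq_or_lt with h3 | h3
    · rw [← h3, T_zero]; simpa using hε
    · have := h1 (y := h) (by rw [dist_zero_right, Real.norm_eq_abs, abs_of_pos h3]; exact hδ') h3
      rwa [dist_eq_norm] at this
  rw [eventually_nhdsWithin_iff, Metric.eventually_nhds_iff]
  refine ⟨δ, hδ, fun t ht ht0 => ?_⟩
  rw [Real.dist_eq] at ht
  rw [dist_eq_norm]
  have hs' : (0 : ℝ) ≤ s := hs
  have ht' : (0 : ℝ) ≤ t := ht0
  rcases le_total s t with h | h
  · rw [abs_of_nonneg (by linarith)] at ht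
    have e1 : T t = (T s).comp (T (t - s)) := by
      rw [← T_add s (t - s) hs' (by linarith)]; congr 1; ring
    rw [e1, ContinuousLinearMap.comp_apply, ← map_sub]
    refine lt_of_le_of_lt ((T s).le_of_opNorm_le (T_norm s) _) ?_
    rw [one_mul]
    exact h2 _ (by linarith) ht
  · rw [abs_of_nonpos (by linarith)] at ht
    have e1 : T s = (T t).comp (T (s - t)) := by
      rw [← T_add t (s - t) ht' (by linarith)]; congr 1; ring
    rw [e1, ContinuousLinearMap.comp_apply, ← map_sub]
    refine lt_of_le_of_lt ((T t).le_of_opNorm_le (T_norm t) _) ?_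
    rw [one_mul, norm_sub_rev]
    exact h2 _ (by linarith) (by linarith)

end Pool.Agent.TH193.LB
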