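import Pool.Agent.TH193.LB.Cont

set_option autoImplicit false
namespace Pool.Agent.TH193.LB

open Filter Topology MeasureTheory ENNReal

/-- the multiplier -/
noncomputable def th (a x : ℝ) : ℝ := if 0 < x then 2 * x / (1 + a * x) else 0

lemma th_meas (a : ℝ) : Measurable (th a) := by
  unfold th
  apply Measurable.ite measurableSet_Ioi <;> fun_prop

lemma th_nonneg {a : ℝ} (ha : 0 < a) (x : ℝ) : 0 ≤ th a x := by
  unfold th
  split_ifs with h
  · positivity
  · exact le_rfl

lemma th_le {a : ℝ} (ha : 0 < a) (x : ℝ) : th a x ≤ 2 / a := by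
  unfold th
  split_ifs with h
  · rw [div_le_div_iff₀ (by positivity) ha]
    nlinarith
  · positivity

/-- the pointwise inequality -/
lemma pointwise {a h y : ℝ} (ha : 0 < a) (hh : 0 < h) (hy : 0 < y) :
    th a y + h * r h y ≤ Real.exp (2 * a * h) * (r h y * th a (y + h)) := by
  unfold th
  rw [if_pos hy, if_pos (by linarith)]
  set s := r h y with hs
  have hs0 : 0 ≤ s := r_nonneg _ _
  have hsq : s * s = y / (y + h) := by
    rw [hs]; unfold r
    exact Real.mul_self_sqrt (by positivity)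
  have hy2 : y = s * s * (y + h) := by rw [hsq]; field_simp
  have hspos : 0 < s := by
    rw [hs]; unfold r
    exact Real.sqrt_pos.2 (by positivity)
  have hexp : 1 + 2 * a * h ≤ Real.exp (2 * a * h) := by
    have := Real.add_one_le_exp (2 * a * h); linarith
  have hs1 : 2 * s ≤ 2 - h / (y + h) := by
    have h1 : s * s = 1 - h / (y + h) := by rw [hsq]; field_simp; ring
    nlinarith [sq_nonneg (s - 1)]
  -- main inequality divided by s (y+h)
  have main : 2 * s / (1 + a * y) + h / (y + h) ≤ (1 + 2 * a * h) * (2 / (1 + a * (y + h))) := by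
    have h1 : 2 * s / (1 + a * y) ≤ (2 - h / (y + h)) / (1 + a * y) := by
      apply div_le_div_of_nonneg_right hs1 (by positivity)
    refine (add_le_add_left h1 _).trans ?_
    rw [← sub_nonneg]
    have e : (1 + 2 * a * h) * (2 / (1 + a * (y + h))) - ((2 - h / (y + h)) / (1 + a * y) +
        h / (y + h)) = (h * a * (2 * (1 + 2 * a * y) * (y + h) - y * (1 + a * (y + h)))) /
          ((1 + a * (y + h)) * (1 + a * y) * (y + h)) := by
      field_simp
      ring
    rw [e]
    apply div_nonneg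
    · have : 0 ≤ 2 * (1 + 2 * a * y) * (y + h) - y * (1 + a * (y + h)) := by
        have h2 : 0 ≤ a * y * (y + h) := by positivity
        nlinarith
      positivity
    · positivity
  have hm2 : (2 * s / (1 + a * y) + h / (y + h)) * (s * (y + h)) ≤
      (1 + 2 * a * h) * (2 / (1 + a * (y + h))) * (s * (y + h)) :=
    mul_le_mul_of_nonneg_right main (by positivity)
  have e1 : (2 * s / (1 + a * y) + h / (y + h)) * (s * (y + h)) =
      2 * y / (1 + a * y) + h * s := by
    have : 2 * s / (1 + a * y) * (s * (y + h)) = 2 * (s * s * (y + h)) / (1 + a * y) := by ring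
    rw [add_mul, this, ← hy2]
    congr 1
    field_simp
  have e2 : (1 + 2 * a * h) * (2 / (1 + a * (y + h))) * (s * (y + h)) =
      (1 + 2 * a * h) * (s * (2 * (y + h) / (1 + a * (y + h)))) := by ring
  rw [e1, e2] at hm2
  refine hm2.trans ?_
  apply mul_le_mul_of_nonneg_right hexp (by positivity)

/-- bochner change of variables -/
lemma integral_shift {t : ℝ} (ht : 0 ≤ t) (G : ℝ → ℝ)
    (hG : AEStronglyMeasurable G nu) :
    ∫ x, (Set.Ioi t).indicator (fun x => G (x - t)) x ∂nu = ∫ y, r t y * G y ∂nu := by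
  have h1 : (nu.restrict (Set.Ioi t)).map (fun x => x - t) ≪ nu :=
    Measure.absolutelyContinuous_of_le (map_le ht)
  rw [integral_indicator measurableSet_Ioi]
  have h2 := integral_map (μ := nu.restrict (Set.Ioi t)) (φ := fun x : ℝ => x - t) (by fun_prop)
    (hG.mono_ac h1)
  rw [← h2, map_eq ht, integral_withDensity_eq_integral_toReal_smul
    ((r_meas t).ennreal_ofReal) (by filter_upwards with x; exact ENNReal.ofReal_lt_top)]
  congr 1
  ext y
  rw [ENNReal.toReal_ofReal (r_nonneg _ _), smul_eq_mul]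

lemma int_sq (f : H) : Integrable (fun x => ‖(f : ℝ → ℂ) x‖ ^ 2) nu := by
  have := (Lp.memLp f).norm.integrable_sq
  exact this

lemma int_mul (f : H) (b : ℝ → ℝ) (hb : Measurable b) (C : ℝ) (hC : ∀ᵐ x ∂nu, |b x| ≤ C) :
    Integrable (fun x => b x * ‖(f : ℝ → ℂ) x‖ ^ 2) nu := by
  apply (int_sq f).bdd_mul hb.aestronglyMeasurable (c := C)
  filter_upwards [hC] with x hx
  rwa [Real.norm_eq_abs]

lemma norm_sq_eq (f : H) : ‖f‖ ^ 2 = ∫ x, ‖(f : ℝ → ℂ) x‖ ^ 2 ∂nu := by
  have h1 : ((inner ℂ f f : ℂ)) = ((‖f‖ ^ 2 : ℝ) : ℂ) := by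
    rw [inner_self_eq_norm_sq_to_K]; norm_cast
  have h2 : (inner ℂ f f : ℂ) = ((∫ x, ‖(f : ℝ → ℂ) x‖ ^ 2 ∂nu : ℝ) : ℂ) := by
    rw [L2.inner_def, ← integral_complex_ofReal]
    congr 1
    ext x
    rw [inner_self_eq_norm_sq_to_K]; norm_cast
  rw [h1] at h2
  exact_mod_cast h2

lemma mul_memLp {a : ℝ} (ha : 0 < a) (f : H) :
    MemLp (fun x => ((th a x : ℝ) : ℂ) * (f : ℝ → ℂ) x) 2 nu := by
  apply MemLp.of_le_mul (Lp.memLp f) (c := 2 / a)
  · apply AEStronglyMeasurable.mul
    · exact (Complex.measurable_ofReal.comp (th_meas a)).aestronglyMeasurable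
    · exact Lp.aestronglyMeasurable f
  · filter_upwards with x
    rw [norm_mul, Complex.norm_real, Real.norm_eq_abs, abs_of_nonneg (th_nonneg ha x)]
    exact mul_le_mul_of_nonneg_right (th_le ha x) (norm_nonneg _)

/-- the multiplication operator -/
noncomputable def M (a : ℝ) (ha : 0 < a) : H →L[ℂ] H :=
  LinearMap.mkContinuous
    { toFun := fun f => (mul_memLp ha f).toLp
      map_add' := by
        intro f g
        rw [← MemLp.toLp_add]
        rw [MemLp.toLp_eq_toLp_iff]
        filter_upwards [Lp.coeFn_add f g] with x hx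
        rw [Pi.add_apply, hx, Pi.add_apply, mul_add]
      map_smul' := by
        intro c f
        rw [RingHom.id_apply, ← MemLp.toLp_const_smul]
        rw [MemLp.toLp_eq_toLp_iff]
        filter_upwards [Lp.coeFn_smul c f] with x hx
        rw [Pi.smul_apply, hx, Pi.smul_apply, smul_eq_mul, smul_eq_mul]
        ring } (2 / a) (by
      intro f
      change ‖(mul_memLp ha f).toLp‖ ≤ 2 / a * ‖f‖
      apply Lp.norm_le_mul_norm_of_ae_le_mul
      filter_upwards [(mul_memLp ha f).coeFn_toLp] with x hx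
      rw [hx, norm_mul, Complex.norm_real, Real.norm_eq_abs, abs_of_nonneg (th_nonneg ha x)]
      exact mul_le_mul_of_nonneg_right (th_le ha x) (norm_nonneg _))

lemma M_coe {a : ℝ} (ha : 0 < a) (f : H) :
    (M a ha f : ℝ → ℂ) =ᵐ[nu] fun x => ((th a x : ℝ) : ℂ) * (f : ℝ → ℂ) x :=
  (mul_memLp ha f).coeFn_toLp

lemma M_norm {a : ℝ} (ha : 0 < a) : ‖M a ha‖ ≤ 2 / a :=
  LinearMap.mkContinuous_norm_le _ (by positivity) _

lemma M_symm {a : ℝ} (ha : 0 < a) (f g : H) :
    (inner ℂ (M a ha f) g : ℂ) = inner ℂ f (M a ha g) := by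
  rw [L2.inner_def, L2.inner_def]
  apply integral_congr_ae
  filter_upwards [M_coe ha f, M_coe ha g] with x h1 h2
  rw [h1, h2]
  simp only [RCLike.inner_apply, map_mul, Complex.conj_ofReal]
  ring

/-- the quadratic form -/
noncomputable def Q (a : ℝ) (ha : 0 < a) (f : H) : ℝ := (inner ℂ (M a ha f) f : ℂ).re

lemma Q_inner {a : ℝ} (ha : 0 < a) (f : H) :
    (inner ℂ (M a ha f) f : ℂ) = ((∫ x, th a x * ‖(f : ℝ → ℂ) x‖ ^ 2 ∂nu : ℝ) : ℂ) := by
  rw [L2.inner_def, ← integral_complex_ofReal]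
  apply integral_congr_ae
  filter_upwards [M_coe ha f] with x h1
  rw [h1, RCLike.inner_apply, map_mul, Complex.conj_ofReal]
  rw [show (f : ℝ → ℂ) x * (((th a x : ℝ) : ℂ) * (starRingEnd ℂ) ((f : ℝ → ℂ) x)) =
    ((th a x : ℝ) : ℂ) * ((f : ℝ → ℂ) x * (starRingEnd ℂ) ((f : ℝ → ℂ) x)) by ring,
    Complex.mul_conj, Complex.normSq_eq_norm_sq]
  push_cast
  ring

lemma Q_eq {a : ℝ} (ha : 0 < a) (f : H) : Q a ha f = ∫ x, th a x * ‖(f : ℝ → ℂ) x‖ ^ 2 ∂nu := by
  unfold Q
  rw [Q_inner, Complex.ofReal_re]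

lemma T_normsq {t : ℝ} (ht : 0 ≤ t) (f : H) :
    ‖T t f‖ ^ 2 = ∫ y, r t y * ‖(f : ℝ → ℂ) y‖ ^ 2 ∂nu := by
  rw [norm_sq_eq, ← integral_shift ht _ (int_sq f).aestronglyMeasurable, T_eq ht]
  apply integral_congr_ae
  filter_upwards [S_coe ht f] with x hx
  rw [hx, sh_apply, Set.indicator_apply]
  by_cases h : t < x
  · rw [if_pos h, if_pos (show x ∈ Set.Ioi t from h)]
  · rw [if_neg h, if_neg (show x ∉ Set.Ioi t from h)]; simp

lemma T_Q {a : ℝ} (ha : 0 < a) {t : ℝ} (ht : 0 ≤ t) (f : H) :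
    Q a ha (T t f) = ∫ y, r t y * (th a (y + t) * ‖(f : ℝ → ℂ) y‖ ^ 2) ∂nu := by
  have hi : Integrable (fun y => th a (y + t) * ‖(f : ℝ → ℂ) y‖ ^ 2) nu := by
    apply int_mul f (fun y => th a (y + t)) ((th_meas a).comp (measurable_id.add_const t)) (2 / a)
    filter_upwards with x
    rw [abs_of_nonneg (th_nonneg ha _)]
    exact th_le ha _
  rw [Q_eq, ← integral_shift ht _ hi.aestronglyMeasurable, T_eq ht]
  apply integral_congr_ae
  filter_upwards [S_coe ht f] with x hx
  rw [hx, sh_apply, Set.indicator_apply]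
  by_cases h : t < x
  · rw [if_pos h, if_pos (show x ∈ Set.Ioi t from h), sub_add_cancel]
  · rw [if_neg h, if_neg (show x ∉ Set.Ioi t from h)]; simp

lemma lyap {a : ℝ} (ha : 0 < a) {h : ℝ} (hh : 0 < h) (f : H) :
    Q a ha f + h * ‖T h f‖ ^ 2 ≤ Real.exp (2 * a * h) * Q a ha (T h f) := by
  rw [T_Q ha hh.le, T_normsq hh.le, Q_eq]
  have hr : ∀ᵐ y ∂nu, |r h y| ≤ 1 := by
    filter_upwards [ae_pos] with y hy
    rw [abs_of_nonneg (r_nonneg _ _)]
    exact r_le_one hh.le hy
  have i1 : Integrable (fun y => th a y * ‖(f : ℝ → ℂ) y‖ ^ 2) nu := by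
    apply int_mul f _ (th_meas a) (2 / a)
    filter_upwards with x
    rw [abs_of_nonneg (th_nonneg ha _)]
    exact th_le ha _
  have i2 : Integrable (fun y => r h y * ‖(f : ℝ → ℂ) y‖ ^ 2) nu :=
    int_mul f _ (r_meas h) 1 hr
  have i3 : Integrable (fun y => r h y * (th a (y + h) * ‖(f : ℝ → ℂ) y‖ ^ 2)) nu := by
    have := int_mul f (fun y => r h y * th a (y + h))
      ((r_meas h).mul ((th_meas a).comp (measurable_id.add_const h))) (1 * (2 / a)) (by
        filter_upwards [hr] with y hy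
        rw [abs_mul, abs_of_nonneg (th_nonneg ha _)]
        exact mul_le_mul hy (th_le ha _) (th_nonneg ha _) zero_le_one)
    refine this.congr ?_
    filter_upwards with y
    ring
  rw [← integral_const_mul, ← integral_const_mul, ← integral_add i1 (i2.const_mul h)]
  apply integral_mono_ae (i1.add (i2.const_mul h)) (i3.const_mul _)
  filter_upwards [ae_pos] with y hy
  have := mul_le_mul_of_nonneg_right (pointwise ha hh hy) (sq_nonneg ‖(f : ℝ → ℂ) y‖)
  simp only [Pi.add_apply]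
  nlinarith [this]

end Pool.Agent.TH193.LB
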