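import Mathlib

set_option autoImplicit false
namespace Pool.Agent.TH193.LB

open Filter Topology MeasureTheory ENNReal

/-- the weight `1/sqrt x` -/
noncomputable def w (x : ℝ) : ℝ≥0∞ := ENNReal.ofReal (1 / Real.sqrt x)

lemma w_meas : Measurable w := by
  unfold w
  fun_prop

/-- the measure `x^(-1/2) dx` on the half line -/
noncomputable def nu : Measure ℝ := (volume.restrict (Set.Ioi 0)).withDensity w

/-- the factor `sqrt (y/(y+t))` -/
noncomputable def r (t y : ℝ) : ℝ := Real.sqrt (y / (y + t))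

lemma r_meas (t : ℝ) : Measurable (r t) := by
  unfold r
  fun_prop

lemma r_nonneg (t y : ℝ) : 0 ≤ r t y := Real.sqrt_nonneg _

lemma r_le_one {t y : ℝ} (ht : 0 ≤ t) (hy : 0 < y) : r t y ≤ 1 := by
  unfold r
  rw [Real.sqrt_le_one, div_le_one (by linarith)]
  linarith

lemma w_shift {t y : ℝ} (ht : 0 ≤ t) (hy : 0 < y) : w (y + t) = w y * ENNReal.ofReal (r t y) := by
  unfold w r
  rw [← ENNReal.ofReal_mul (by positivity)]
  congr 1
  rw [Real.sqrt_div hy.le]
  have h1 : 0 < Real.sqrt y := Real.sqrt_pos.2 hy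
  field_simp

lemma ae_pos : ∀ᵐ x ∂nu, (0 : ℝ) < x := by
  have h : nu ≪ volume.restrict (Set.Ioi (0 : ℝ)) := withDensity_absolutelyContinuous _ _
  apply h.ae_le
  exact ae_restrict_mem measurableSet_Ioi

lemma nu_restrict {t : ℝ} (ht : 0 ≤ t) :
    nu.restrict (Set.Ioi t) = (volume.restrict (Set.Ioi t)).withDensity w := by
  unfold nu
  rw [restrict_withDensity measurableSet_Ioi, Measure.restrict_restrict measurableSet_Ioi,
    Set.Ioi_inter_Ioi, max_eq_left ht]

lemma lint {t : ℝ} (ht : 0 ≤ t) (F : ℝ → ℝ≥0∞) (hF : Measurable F) :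
    ∫⁻ x in Set.Ioi t, F (x - t) ∂nu = ∫⁻ y, ENNReal.ofReal (r t y) * F y ∂nu := by
  rw [nu_restrict ht, lintegral_withDensity_eq_lintegral_mul _ w_meas (by fun_prop)]
  unfold nu
  have hm : Measurable (fun y => ENNReal.ofReal (r t y) * F y) :=
    ((r_meas t).ennreal_ofReal).mul hF
  rw [lintegral_withDensity_eq_lintegral_mul _ w_meas hm]
  rw [← lintegral_indicator measurableSet_Ioi, ← lintegral_indicator measurableSet_Ioi]
  rw [← lintegral_add_right_eq_self _ t]
  congr 1
  ext y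
  by_cases hy : 0 < y
  · rw [Set.indicator_of_mem (show y + t ∈ Set.Ioi t by simpa using hy),
      Set.indicator_of_mem (show y ∈ Set.Ioi 0 from hy)]
    simp only [Pi.mul_apply]
    rw [w_shift ht hy, add_sub_cancel_right, mul_assoc]
  · rw [Set.indicator_of_notMem (show y + t ∉ Set.Ioi t by simpa using hy),
      Set.indicator_of_notMem (show y ∉ Set.Ioi 0 from hy)]

lemma map_eq {t : ℝ} (ht : 0 ≤ t) :
    (nu.restrict (Set.Ioi t)).map (fun x => x - t) =
      nu.withDensity (fun y => ENNReal.ofReal (r t y)) := by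
  ext s hs
  rw [← lintegral_indicator_one hs, lintegral_map (by fun_prop) (by fun_prop),
    lint ht _ (by fun_prop), withDensity_apply _ hs, ← lintegral_indicator hs]
  congr 1
  ext y
  by_cases hy : y ∈ s <;> simp [hy]

lemma map_le {t : ℝ} (ht : 0 ≤ t) :
    (nu.restrict (Set.Ioi t)).map (fun x => x - t) ≤ nu := by
  rw [map_eq ht]
  calc nu.withDensity (fun y => ENNReal.ofReal (r t y)) ≤ nu.withDensity 1 := by
        apply withDensity_mono
        filter_upwards [ae_pos] with y hy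
        simp only [Pi.one_apply]
        rw [ENNReal.ofReal_le_one]
        exact r_le_one ht hy
    _ = nu := withDensity_one

lemma ae_shift {t : ℝ} (ht : 0 ≤ t) {p : ℝ → Prop} (h : ∀ᵐ y ∂nu, p y) :
    ∀ᵐ x ∂nu, t < x → p (x - t) := by
  have h1 : (nu.restrict (Set.Ioi t)).map (fun x => x - t) ≪ nu :=
    Measure.absolutelyContinuous_of_le (map_le ht)
  have h2 := h1.ae_le h
  have h3 := ae_of_ae_map (by fun_prop) h2
  rw [ae_restrict_iff' measurableSet_Ioi] at h3
  exact h3

/-- the shifted function -/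
noncomputable def sh (t : ℝ) (f : ℝ → ℂ) : ℝ → ℂ := (Set.Ioi t).indicator (fun x => f (x - t))

lemma sh_apply (t : ℝ) (f : ℝ → ℂ) (x : ℝ) : sh t f x = if t < x then f (x - t) else 0 := by
  unfold sh
  rw [Set.indicator_apply]
  rfl

lemma sh_ae {t : ℝ} (ht : 0 ≤ t) {f g : ℝ → ℂ} (h : f =ᵐ[nu] g) : sh t f =ᵐ[nu] sh t g := by
  filter_upwards [ae_shift ht h] with x hx
  rw [sh_apply, sh_apply]
  split_ifs with h1
  · exact hx h1
  · rfl

lemma sh_eLpNorm {t : ℝ} (ht : 0 ≤ t) {f : ℝ → ℂ} (hf : AEStronglyMeasurable f nu) :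
    eLpNorm (sh t f) 2 nu ≤ eLpNorm f 2 nu := by
  have h1 : (nu.restrict (Set.Ioi t)).map (fun x => x - t) ≪ nu :=
    Measure.absolutelyContinuous_of_le (map_le ht)
  unfold sh
  rw [eLpNorm_indicator_eq_eLpNorm_restrict measurableSet_Ioi]
  have h2 := eLpNorm_map_measure (p := 2) (μ := nu.restrict (Set.Ioi t)) (f := fun x : ℝ => x - t)
    (hf.mono_ac h1) (by fun_prop)
  change eLpNorm (f ∘ fun x => x - t) 2 (nu.restrict (Set.Ioi t)) ≤ _
  rw [← h2]
  exact eLpNorm_mono_measure _ (map_le ht)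

lemma sh_memLp {t : ℝ} (ht : 0 ≤ t) {f : ℝ → ℂ} (hf : MemLp f 2 nu) : MemLp (sh t f) 2 nu := by
  have h1 : (nu.restrict (Set.Ioi t)).map (fun x => x - t) ≪ nu :=
    Measure.absolutelyContinuous_of_le (map_le ht)
  refine ⟨?_, (sh_eLpNorm ht hf.1).trans_lt hf.2⟩
  unfold sh
  rw [aestronglyMeasurable_indicator_iff measurableSet_Ioi]
  exact (hf.1.mono_ac h1).comp_aemeasurable (by fun_prop)

/-- the Hilbert space -/
abbrev H : Type := Lp ℂ 2 nu

/-- the semigroup -/
noncomputable def S (t : ℝ) (ht : 0 ≤ t) : H →L[ℂ] H :=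
  LinearMap.mkContinuous
    { toFun := fun f => (sh_memLp ht (Lp.memLp f)).toLp
      map_add' := by
        intro f g
        rw [← MemLp.toLp_add]
        rw [MemLp.toLp_eq_toLp_iff]
        refine (sh_ae ht (Lp.coeFn_add f g)).trans ?_
        filter_upwards with x
        rw [Pi.add_apply, sh_apply, sh_apply, sh_apply]
        split_ifs <;> simp
      map_smul' := by
        intro c f
        rw [RingHom.id_apply, ← MemLp.toLp_const_smul]
        rw [MemLp.toLp_eq_toLp_iff]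
        refine (sh_ae ht (Lp.coeFn_smul c f)).trans ?_
        filter_upwards with x
        rw [Pi.smul_apply, sh_apply, sh_apply]
        split_ifs <;> simp } 1 (by
      intro f
      rw [one_mul]
      change ‖(sh_memLp ht (Lp.memLp f)).toLp‖ ≤ ‖f‖
      rw [Lp.norm_toLp, Lp.norm_def]
      exact ENNReal.toReal_mono (Lp.memLp f).2.ne (sh_eLpNorm ht (Lp.memLp f).1))

lemma S_coe {t : ℝ} (ht : 0 ≤ t) (f : H) : (S t ht f : ℝ → ℂ) =ᵐ[nu] sh t f :=
  MemLp.coeFn_toLp (sh_memLp ht (Lp.memLp f))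

lemma S_norm_le {t : ℝ} (ht : 0 ≤ t) : ‖S t ht‖ ≤ 1 :=
  LinearMap.mkContinuous_norm_le _ zero_le_one _

lemma S_zero : S 0 le_rfl = ContinuousLinearMap.id ℂ H := by
  ext1 f
  apply Lp.ext
  refine (S_coe le_rfl f).trans ?_
  filter_upwards [ae_pos] with x hx
  rw [sh_apply, if_pos hx, sub_zero]
  rfl

lemma S_add {s t : ℝ} (hs : 0 ≤ s) (ht : 0 ≤ t) :
    S (s + t) (add_nonneg hs ht) = (S s hs).comp (S t ht) := by
  ext1 f
  apply Lp.ext
  refine (S_coe _ f).trans ?_
  refine EventuallyEq.trans ?_ (S_coe hs (S t ht f)).symm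
  refine EventuallyEq.trans ?_ (sh_ae hs (S_coe ht f)).symm
  filter_upwards with x
  rw [sh_apply, sh_apply, sh_apply]
  by_cases h : s + t < x
  · rw [if_pos h, if_pos (by linarith), if_pos (by linarith)]
    congr 1; ring
  · rw [if_neg h]
    split_ifs with h1 h2
    · exfalso; linarith
    · rfl
    · rfl

/-- the semigroup for all real times -/
noncomputable def T (t : ℝ) : H →L[ℂ] H := S (max t 0) (le_max_right _ _)

lemma T_eq {t : ℝ} (ht : 0 ≤ t) : T t = S t ht := by
  unfold T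
  congr 1
  exact max_eq_left ht

lemma T_zero : T 0 = ContinuousLinearMap.id ℂ H := by rw [T_eq le_rfl, S_zero]

lemma T_add (s t : ℝ) (hs : 0 ≤ s) (ht : 0 ≤ t) : T (s + t) = (T s).comp (T t) := by
  rw [T_eq hs, T_eq ht, T_eq (add_nonneg hs ht), S_add]

lemma T_norm (t : ℝ) : ‖T t‖ ≤ 1 := S_norm_le _

end Pool.Agent.TH193.LB
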